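import Mathlib

set_option autoImplicit false

namespace Pool.Agent.Results.MP_0634a4_nt.NotInteger

def u (l : ℤ) : ℕ → ℤ
  | 0 => 0
  | 1 => 1
  | (m + 2) => l * u l (m + 1) - u l m

def T (l : ℤ) (n k : ℕ) : ℚ :=
  (∑ i ∈ Finset.Icc 1 n, (u l i : ℚ) ^ (3 * (4 * k - 3))) / ∑ i ∈ Finset.Icc 1 n, (u l i : ℚ) ^ 3

theorem result : ∃ n k : ℕ, 1 ≤ n ∧ 1 ≤ k ∧ ¬ ∃ z : ℤ, T 2 n k = z := by
  refine ⟨10, 5, by norm_num, by norm_num, ?_⟩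
  rintro ⟨z, hz⟩
  have h : (T 2 10 5).den = 11 := by decide +kernel
  rw [hz] at h
  simp at h

end Pool.Agent.Results.MP_0634a4_nt.NotInteger
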